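import Pool.Agent.Zk18.Th.Stm2

/-!
# Module LIN: a dependent tuple lies on a line together with all its relations
-/

set_option autoImplicit false

namespace Pool.Agent.Zk85.Th18

open Pool.Agent.Zk18.Th MvPolynomial

theorem t_LIN : S_LIN := by
  intro K U _ _ _ k hk y i hi hdep
  classical
  obtain ⟨g, hg, hg0⟩ := Fintype.not_linearIndependent_iff.mp hdep
  rw [Fin.sum_univ_succ] at hg
  simp only [Fin.cons_zero, Fin.cons_succ] at hg
  -- the direction
  obtain ⟨a, ha0, ha⟩ : ∃ a : Fin (k + 1) → K, a ≠ 0 ∧ ∑ l, g l.succ * a l = 0 := by
    let l0 : Fin (k + 1) := 0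
    let l1 : Fin (k + 1) := ⟨1, by omega⟩
    have hne : l1 ≠ l0 := by
      intro h
      have := congrArg Fin.val h
      simp [l0, l1] at this
    by_cases hb : g l0.succ = 0
    · refine ⟨Pi.single l0 1, ?_, ?_⟩
      · intro h
        have := congrFun h l0
        simp at this
      · rw [Finset.sum_eq_single l0]
        · simp [hb]
        · intro l _ hl
          simp [Pi.single_eq_of_ne hl]
        · intro h
          exact absurd (Finset.mem_univ _) h
    · refine ⟨Pi.single l0 (-g l1.succ) + Pi.single l1 (g l0.succ), ?_, ?_⟩
      · intro h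
        have := congrFun h l1
        rw [Pi.add_apply, Pi.single_eq_of_ne hne, Pi.single_eq_same, zero_add] at this
        exact hb this
      · simp only [Pi.add_apply, mul_add, Finset.sum_add_distrib]
        rw [Finset.sum_eq_single l0, Finset.sum_eq_single l1]
        · rw [Pi.single_eq_same, Pi.single_eq_same]
          ring
        · intro l _ hl
          simp [Pi.single_eq_of_ne hl]
        · intro h
          exact absurd (Finset.mem_univ _) h
        · intro l _ hl
          simp [Pi.single_eq_of_ne hl]
        · intro h
          exact absurd (Finset.mem_univ _) h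
  refine ⟨a, ha0, fun Q hQ => ?_⟩
  set P : MvPolynomial (Fin (k + 1)) K := C (g 0) + ∑ l, C (g l.succ) * X l with hP
  have hP0 : P ≠ 0 := by
    intro h
    have h1 : g 0 = 0 := by
      have := congrArg (eval (0 : Fin (k + 1) → K)) h
      simpa [hP] using this
    have h2 : ∀ l : Fin (k + 1), g l.succ = 0 := by
      intro l
      have := congrArg (eval (Pi.single l (1 : K))) h
      rw [hP, map_add, eval_C, h1, zero_add, map_sum, Finset.sum_eq_single l] at this
      · simpa using this
      · intro b _ hb
        simp [Pi.single_eq_of_ne hb]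
      · intro h
        exact absurd (Finset.mem_univ _) h
    obtain ⟨j, hj⟩ := hg0
    refine hj ?_
    refine Fin.cases h1 (fun l => h2 l) j
  refine Pool.Agent.Zk18.Dg.curve_transfer y i hi Q P hP0 hQ _ ?_ ?_
  · intro l
    simp
  · rw [hP, map_add, map_sum]
    simp only [map_mul, aeval_X, algHom_C]
    have e1 : ∀ l : Fin (k + 1), algebraMap K (Polynomial U) (g l.succ) *
        (Polynomial.C (y l) + Polynomial.C (algebraMap K U (a l)) * Polynomial.X) =
        Polynomial.C (g l.succ • y l) +
          Polynomial.C (algebraMap K U (g l.succ * a l)) * Polynomial.X := by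
      intro l
      rw [IsScalarTower.algebraMap_apply K U (Polynomial U), Polynomial.algebraMap_eq,
        Algebra.smul_def, map_mul, map_mul, map_mul]
      ring
    rw [Finset.sum_congr rfl fun l _ => e1 l, Finset.sum_add_distrib, ← Finset.sum_mul, ← map_sum,
      ← map_sum, ← map_sum, ha, map_zero, map_zero, zero_mul, add_zero,
      IsScalarTower.algebraMap_apply K U (Polynomial U), Polynomial.algebraMap_eq, ← map_add]
    rw [Algebra.smul_def, mul_one] at hg
    rw [hg, map_zero]

end Pool.Agent.Zk85.Th18
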