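import Pool.Agent.Zk18.Th.Stm3

/-!
# Module QUAD: two polynomials of degree at most two in one number satisfy a quadratic relation
-/

set_option autoImplicit false

namespace Pool.Agent.Zk85.Th18

open Polynomial Pool.Agent.Zk18.Th

lemma expand2 {K U : Type} [Field K] [Field U] [Algebra K U] (t : U) (f : K[X])
    (hf : f.natDegree ≤ 2) : aeval t f = algebraMap K U (f.coeff 0) +
      algebraMap K U (f.coeff 1) * t + algebraMap K U (f.coeff 2) * t ^ 2 := by
  rw [aeval_eq_sum_range' (n := 3) (by omega)]
  simp only [Finset.sum_range_succ, Finset.sum_range_zero, zero_add, Algebra.smul_def, pow_zero,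
    mul_one, pow_one]

theorem t_QUAD : S_QUAD := by
  intro K U _ _ _ t f g hf hg hli
  have hu := expand2 t f hf
  have hv := expand2 t g hg
  set a0 := f.coeff 0
  set a1 := f.coeff 1
  set a2 := f.coeff 2
  set b0 := g.coeff 0
  set b1 := g.coeff 1
  set b2 := g.coeff 2
  set u := aeval t f
  set v := aeval t g
  have hinj : Function.Injective (algebraMap K U) := (algebraMap K U).injective
  -- no linear relation
  have hlin : ∀ x y z : K, algebraMap K U x + algebraMap K U y * u + algebraMap K U z * v = 0 →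
      x = 0 ∧ y = 0 ∧ z = 0 := by
    intro x y z h
    have h1 := Fintype.linearIndependent_iff.mp hli ![x, y, z] (by
      simp only [Fin.sum_univ_three, Matrix.cons_val_zero, Matrix.cons_val_one, Matrix.cons_val_two,
        Algebra.smul_def]
      simpa using h)
    exact ⟨h1 0, h1 1, h1 2⟩
  have hab : a2 ≠ 0 ∨ b2 ≠ 0 := by
    by_contra h
    push_neg at h
    obtain ⟨ha, hb⟩ := h
    rw [ha, map_zero, zero_mul, add_zero] at hu
    rw [hb, map_zero, zero_mul, add_zero] at hv
    have h1 := hlin (a1 * b0 - a0 * b1) b1 (-a1) (by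
      rw [hu, hv]
      simp only [map_sub, map_mul, map_neg]
      ring)
    have ha1 : a1 = 0 := by simpa using h1.2.2
    rw [ha1, map_zero, zero_mul, add_zero] at hu
    have h2 := hlin (-a0) 1 0 (by
      rw [hu]
      simp)
    exact one_ne_zero h2.2.1
  set c1 := a1 * b2 - a2 * b1 with hc1
  set c0 := a0 * b2 - a2 * b0 with hc0
  have hw : algebraMap K U b2 * u - algebraMap K U a2 * v =
      algebraMap K U c0 + algebraMap K U c1 * t := by
    rw [hu, hv, hc0, hc1]
    simp only [map_sub, map_mul]
    ring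
  have hc1' : c1 ≠ 0 := by
    intro h
    rw [h, map_zero, zero_mul, add_zero] at hw
    have h1 := hlin (-c0) b2 (-a2) (by
      rw [map_neg, ← hw, map_neg]
      ring)
    rcases hab with h2 | h2
    · exact h2 (by simpa using h1.2.2)
    · exact h2 h1.2.1
  -- `c1 t = b2 u - a2 v - c0`
  have ht : algebraMap K U c1 * t = algebraMap K U b2 * u - algebraMap K U a2 * v -
      algebraMap K U c0 := by
    rw [hw]; ring
  by_cases ha : a2 = 0
  · have hb : b2 ≠ 0 := by
      rcases hab with h | h
      · exact absurd ha h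
      · exact h
    -- c1² v = c1² b0 + c1 b1 (c1 t) + b2 (c1 t)²
    rw [ha, map_zero, zero_mul, sub_zero] at ht
    refine ⟨![b2 * b2 ^ 2, 0, 0, c1 * b1 * b2 - 2 * b2 * b2 * c0, -c1 ^ 2,
      c1 ^ 2 * b0 - c1 * b1 * c0 + b2 * c0 ^ 2], ?_, ?_⟩
    · intro h
      have := congrFun h 0
      simp at this
      exact hb this
    · have e : algebraMap K U (c1 ^ 2) * v = algebraMap K U (c1 ^ 2 * b0) +
          algebraMap K U (c1 * b1) * (algebraMap K U c1 * t) +
          algebraMap K U b2 * (algebraMap K U c1 * t) ^ 2 := by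
        rw [hv]
        simp only [map_mul, map_pow]
        ring
      rw [ht] at e
      have e' : algebraMap K U (b2 * b2 ^ 2) * u ^ 2 + algebraMap K U 0 * (u * v) +
        algebraMap K U 0 * v ^ 2 + algebraMap K U (c1 * b1 * b2 - 2 * b2 * b2 * c0) * u +
        algebraMap K U (-c1 ^ 2) * v +
        algebraMap K U (c1 ^ 2 * b0 - c1 * b1 * c0 + b2 * c0 ^ 2) = 0 := by
        simp only [map_sub, map_mul, map_add, map_neg, map_pow, map_zero, map_ofNat] at e ⊢
        linear_combination -e
      simpa using e'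
  · -- c1² u = c1² a0 + c1 a1 (c1 t) + a2 (c1 t)²
    refine ⟨![a2 * b2 ^ 2, -2 * a2 * b2 * a2, a2 ^ 3,
      c1 * a1 * b2 - 2 * a2 * b2 * c0 - c1 ^ 2, -c1 * a1 * a2 + 2 * a2 * a2 * c0,
      c1 ^ 2 * a0 - c1 * a1 * c0 + a2 * c0 ^ 2], ?_, ?_⟩
    · intro h
      have := congrFun h 2
      simp at this
      exact ha this
    · have e : algebraMap K U (c1 ^ 2) * u = algebraMap K U (c1 ^ 2 * a0) +
          algebraMap K U (c1 * a1) * (algebraMap K U c1 * t) +
          algebraMap K U a2 * (algebraMap K U c1 * t) ^ 2 := by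
        rw [hu]
        simp only [map_mul, map_pow]
        ring
      rw [ht] at e
      have e' : algebraMap K U (a2 * b2 ^ 2) * u ^ 2 + algebraMap K U (-2 * a2 * b2 * a2) * (u * v) +
        algebraMap K U (a2 ^ 3) * v ^ 2 +
        algebraMap K U (c1 * a1 * b2 - 2 * a2 * b2 * c0 - c1 ^ 2) * u +
        algebraMap K U (-c1 * a1 * a2 + 2 * a2 * a2 * c0) * v +
        algebraMap K U (c1 ^ 2 * a0 - c1 * a1 * c0 + a2 * c0 ^ 2) = 0 := by
        simp only [map_sub, map_mul, map_add, map_neg, map_pow, map_zero, map_ofNat] at e ⊢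
        linear_combination -e
      simpa using e'

end Pool.Agent.Zk85.Th18
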