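import Pool.Agent.Zk18.Th.Stm3

/-!
# Module SPD: the elements of `⟨1, u, v⟩` are algebraically dependent if `u`, `v` are
-/

set_option autoImplicit false

namespace Pool.Agent.Zk85.Th18

open Pool.Agent.Zk18.Th

theorem t_SPD : S_SPD := by
  intro K U _ _ _ _ u v huv x hx y hy hxy
  classical
  let M := AlgebraicIndependent.matroid K U
  have hcl : (Submodule.span K ({1, u, v} : Set U) : Set U) ⊆ M.closure {u, v} := by
    intro w hw
    have h1 : w ∈ Algebra.adjoin K ({u, v} : Set U) := by
      have h2 : Submodule.span K ({1, u, v} : Set U) ≤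
          Subalgebra.toSubmodule (Algebra.adjoin K ({u, v} : Set U)) := by
        rw [Submodule.span_le]
        rintro z (rfl | rfl | rfl)
        · exact one_mem (Algebra.adjoin K ({u, v} : Set U))
        · exact Algebra.subset_adjoin (by simp)
        · exact Algebra.subset_adjoin (by simp)
      exact h2 hw
    show w ∈ (AlgebraicIndependent.matroid K U).closure {u, v}
    rw [AlgebraicIndependent.matroid_closure_eq]
    show IsAlgebraic (Algebra.adjoin K ({u, v} : Set U)) w
    exact isAlgebraic_algebraMap (⟨w, h1⟩ : Algebra.adjoin K ({u, v} : Set U))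
  have hne : x ≠ y := by
    intro h
    have h1 := hxy.injective
    have h2 : (0 : Fin 2) = 1 := h1 (by simpa using h)
    exact absurd h2 (by decide)
  have hi : M.Indep {x, y} := by
    have h1 := hxy.coe_range
    have h2 : Set.range ![x, y] = {x, y} := by
      ext z
      constructor
      · rintro ⟨i, rfl⟩
        fin_cases i
        · exact Or.inl rfl
        · exact Or.inr rfl
      · rintro (rfl | rfl)
        · exact ⟨0, rfl⟩
        · exact ⟨1, rfl⟩
    rw [h2] at h1
    exact h1
  have hrk : (2 : ℕ∞) ≤ M.eRk {u, v} := by
    have h1 := hi.encard_le_eRk_of_subset (X := M.closure {u, v}) (by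
      rintro z (rfl | rfl)
      · exact hcl hx
      · exact hcl hy)
    rw [Matroid.eRk_closure_eq, Set.encard_pair hne] at h1
    exact h1
  have huv1 : u ≠ v := by
    rintro rfl
    have h1 := hrk.trans (M.eRk_le_encard _)
    rw [Set.pair_eq_singleton, Set.encard_singleton] at h1
    exact absurd h1 (by decide)
  have hi2 : M.Indep {u, v} := by
    rw [M.indep_iff_eRk_eq_encard_of_finite (Set.toFinite _), Set.encard_pair huv1]
    refine le_antisymm ?_ hrk
    have := M.eRk_le_encard {u, v}
    rwa [Set.encard_pair huv1] at this
  apply huv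
  have h3 : AlgebraicIndependent K (fun z : ({u, v} : Set U) => (z : U)) := hi2
  let f : Fin 2 → ({u, v} : Set U) := ![⟨u, by simp⟩, ⟨v, by simp⟩]
  have hf : Function.Injective f := by
    intro i j hij
    fin_cases i <;> fin_cases j
    · rfl
    · exact absurd (congrArg Subtype.val hij) huv1
    · exact absurd (congrArg Subtype.val hij) (Ne.symm huv1)
    · rfl
  have h4 := h3.comp f hf
  have h5 : (fun z : ({u, v} : Set U) => (z : U)) ∘ f = ![u, v] := by
    funext i
    fin_cases i <;> rfl
  rw [h5] at h4
  exact h4

end Pool.Agent.Zk85.Th18
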